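import Pool.Agent.J4H93.XC.X15

/-!
# The comparison theorem on all cubes
-/

set_option autoImplicit false

namespace Pool.Agent.J4H93.XC

open MeasureTheory Set Filter Topology Pool.Agent.J4H58.XC

variable {n : ℕ}

/-- change of variables `x = a + c u` -/
theorem int_aff {D : Set (Fin n → ℝ)} (hD : MeasurableSet D) (a : Fin n → ℝ) (c : ℝ)
    (g : (Fin n → ℝ) → ℝ) :
    ∫ u in (fun u : Fin n → ℝ => a + c • u) ⁻¹' D, g (a + c • u) =
      |(c ^ n)⁻¹| * ∫ x in D, g x := by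
  have hm : Measurable fun u : Fin n → ℝ => a + c • u := by fun_prop
  rw [← integral_indicator (hm hD), ← integral_indicator hD]
  have h1 : ((fun u : Fin n → ℝ => a + c • u) ⁻¹' D).indicator (fun u => g (a + c • u)) =
      fun u => (fun v => D.indicator g (a + v)) (c • u) := by
    funext u
    by_cases h : a + c • u ∈ D
    · rw [indicator_of_mem (show u ∈ (fun u : Fin n → ℝ => a + c • u) ⁻¹' D from h)]
      exact (indicator_of_mem h g).symm
    · rw [indicator_of_notMem (show u ∉ (fun u : Fin n → ℝ => a + c • u) ⁻¹' D from h)]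
      exact (indicator_of_notMem h g).symm
  rw [h1, Measure.integral_comp_smul, integral_add_left_eq_self (fun v => D.indicator g v) a,
    Module.finrank_fin_fun, smul_eq_mul]

/-- the partial derivatives of `x ↦ f (c⁻¹ (x - a))` -/
theorem pd_aff {f : (Fin n → ℝ) → ℝ} (hf : ContDiff ℝ 1 f) (a : Fin n → ℝ) (c : ℝ) (i : Fin n)
    (x : Fin n → ℝ) :
    pd (fun x => f (c⁻¹ • (x - a))) i x = c⁻¹ * pd f i (c⁻¹ • (x - a)) := by
  have h1 : HasFDerivAt (fun x : Fin n → ℝ => c⁻¹ • (x - a))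
      (c⁻¹ • ContinuousLinearMap.id ℝ (Fin n → ℝ)) x :=
    ((hasFDerivAt_id x).sub_const a).const_smul c⁻¹
  have h2 := ((hf.differentiable one_ne_zero) (c⁻¹ • (x - a))).hasFDerivAt.comp x h1
  unfold pd
  have h3 : fderiv ℝ (fun x => f (c⁻¹ • (x - a))) x =
      (fderiv ℝ f (c⁻¹ • (x - a))).comp (c⁻¹ • ContinuousLinearMap.id ℝ (Fin n → ℝ)) := h2.fderiv
  rw [h3]
  simp

theorem gr_aff {f : (Fin n → ℝ) → ℝ} (hf : ContDiff ℝ 1 f) (a : Fin n → ℝ) {c : ℝ} (hc : c ≠ 0)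
    (x : Fin n → ℝ) :
    c ^ 2 * gr (fun x => f (c⁻¹ • (x - a))) x = gr f (c⁻¹ • (x - a)) := by
  unfold gr
  rw [Finset.mul_sum]
  refine Finset.sum_congr rfl fun i _ => ?_
  rw [pd_aff hf a c i x]
  field_simp

/-- Poincare's inequality and affine changes of variables -/
theorem PD_aff {D : Set (Fin n → ℝ)} (hD : MeasurableSet D) {ρ : (Fin n → ℝ) → ℝ} {K : ℝ}
    (a : Fin n → ℝ) {c : ℝ} (hc : c ≠ 0) (h : PD D ρ K) :
    PD ((fun u : Fin n → ℝ => a + c • u) ⁻¹' D) (fun u => ρ (a + c • u)) (K / c ^ 2) := by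
  intro f hf
  have hF : ContDiff ℝ 1 fun x : Fin n → ℝ => f (c⁻¹ • (x - a)) :=
    hf.comp ((contDiff_id.sub contDiff_const).const_smul c⁻¹)
  have hinv : ∀ u : Fin n → ℝ, c⁻¹ • (a + c • u - a) = u := by
    intro u
    rw [add_sub_cancel_left, smul_smul, inv_mul_cancel₀ hc, one_smul]
  have h0 := h _ hF
  have e1 := int_aff hD a c ρ
  have e2 := int_aff hD a c fun x => ρ x * f (c⁻¹ • (x - a)) ^ 2
  have e3 := int_aff hD a c fun x => ρ x * f (c⁻¹ • (x - a))
  have e4 := int_aff hD a c fun x => ρ x * (c ^ 2 * gr (fun x => f (c⁻¹ • (x - a))) x)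
  have e5 : ∫ x in D, ρ x * (c ^ 2 * gr (fun x => f (c⁻¹ • (x - a))) x) =
      c ^ 2 * ∫ x in D, ρ x * gr (fun x => f (c⁻¹ • (x - a))) x := by
    rw [← integral_const_mul]
    refine integral_congr_ae (Eventually.of_forall fun x => ?_)
    show ρ x * (c ^ 2 * _) = c ^ 2 * (ρ x * _)
    ring
  simp only [gr_aff hf a hc] at e4 e5
  simp only [hinv] at e2 e3 e4
  rw [e1, e2, e3, e4, e5]
  set κ := |(c ^ n)⁻¹|
  set A := ∫ x in D, ρ x
  set B := ∫ x in D, ρ x * f (c⁻¹ • (x - a)) ^ 2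
  set M := ∫ x in D, ρ x * f (c⁻¹ • (x - a))
  set E := ∫ x in D, ρ x * gr (fun x => f (c⁻¹ • (x - a))) x
  have h1 : κ ^ 2 * (A * B - M ^ 2) ≤ κ ^ 2 * (A * (K * E)) :=
    mul_le_mul_of_nonneg_left h0 (sq_nonneg _)
  calc κ * A * (κ * B) - (κ * M) ^ 2 = κ ^ 2 * (A * B - M ^ 2) := by ring
    _ ≤ κ ^ 2 * (A * (K * E)) := h1
    _ = κ * A * (K / c ^ 2 * (κ * (c ^ 2 * E))) := by field_simp

theorem t_X11 : S_X11 := by
  intro hCQ n R ρ K L hR hρ hpos hsym hK hL h
  have hc : 2 * L ≠ 0 := by positivity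
  have hc2 : (2 * L)⁻¹ ≠ 0 := inv_ne_zero hc
  have h1 := PD_aff (c := 2 * L) (D := cu n L) measurableSet_Icc (fun _ => -L) hc h
  have e1 : (fun u : Fin n → ℝ => (fun _ => -L : Fin n → ℝ) + (2 * L) • u) ⁻¹' cu n L =
      Icc 0 1 := by
    ext u
    simp only [cu, mem_preimage, mem_Icc, Pi.le_def, Pi.add_apply, Pi.smul_apply, smul_eq_mul,
      Pi.zero_apply, Pi.one_apply]
    constructor
    · rintro ⟨h1, h2⟩
      refine ⟨fun i => ?_, fun i => ?_⟩
      · have := h1 i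
        by_contra h3
        push Not at h3
        nlinarith
      · have := h2 i
        by_contra h3
        push Not at h3
        nlinarith
    · rintro ⟨h1, h2⟩
      refine ⟨fun i => ?_, fun i => ?_⟩
      · have := h1 i
        nlinarith
      · have := h2 i
        nlinarith
  rw [e1] at h1
  have h2 := hCQ n R (fun u => ρ ((fun _ => -L : Fin n → ℝ) + (2 * L) • u)) (K / (2 * L) ^ 2) hR
    (hρ.comp (by fun_prop)) (fun x => hpos _)
    (fun x σ => hsym ((fun _ => -L : Fin n → ℝ) + (2 * L) • x) σ) (by positivity) h1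
  have h3 := PD_aff (measurableSet_Icc.inter (meas_ordc R))
    (-((2 * L)⁻¹ • (fun _ => -L : Fin n → ℝ))) hc2 h2
  have e2 : ∀ x : Fin n → ℝ, (fun _ => -L : Fin n → ℝ) + (2 * L) •
      (-((2 * L)⁻¹ • (fun _ => -L : Fin n → ℝ)) + (2 * L)⁻¹ • x) = x := by
    intro x
    funext i
    simp only [Pi.add_apply, Pi.smul_apply, Pi.neg_apply, smul_eq_mul]
    field_simp
    ring
  have e3 : K / (2 * L) ^ 2 / (2 * L)⁻¹ ^ 2 = K := by
    field_simp
  have e4 : (fun u : Fin n → ℝ => -((2 * L)⁻¹ • (fun _ => -L : Fin n → ℝ)) + (2 * L)⁻¹ • u) ⁻¹'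
      (Icc 0 1 ∩ ordc R) = cu n L ∩ ordc R := by
    ext x
    constructor
    · rintro ⟨h4, h5⟩
      refine ⟨?_, ?_⟩
      · rw [← e1] at h4
        have h6 : (fun _ => -L : Fin n → ℝ) + (2 * L) •
          (-((2 * L)⁻¹ • (fun _ => -L : Fin n → ℝ)) + (2 * L)⁻¹ • x) ∈ cu n L := h4
        rwa [e2] at h6
      · intro i j hij
        have h6 := h5 i j hij
        simp only [Pi.add_apply, Pi.smul_apply, Pi.neg_apply, smul_eq_mul] at h6
        have h7 : (2 * L)⁻¹ * x i ≤ (2 * L)⁻¹ * x j := by linarith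
        exact le_of_mul_le_mul_left h7 (by positivity)
    · rintro ⟨h4, h5⟩
      refine ⟨?_, ?_⟩
      · rw [← e1]
        show (fun _ => -L : Fin n → ℝ) + (2 * L) •
          (-((2 * L)⁻¹ • (fun _ => -L : Fin n → ℝ)) + (2 * L)⁻¹ • x) ∈ cu n L
        rwa [e2]
      · intro i j hij
        have h6 := h5 i j hij
        show (-((2 * L)⁻¹ • (fun _ => -L : Fin n → ℝ)) + (2 * L)⁻¹ • x) i ≤
          (-((2 * L)⁻¹ • (fun _ => -L : Fin n → ℝ)) + (2 * L)⁻¹ • x) j
        simp only [Pi.add_apply, Pi.smul_apply, Pi.neg_apply, smul_eq_mul]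
        have h7 : (2 * L)⁻¹ * x i ≤ (2 * L)⁻¹ * x j :=
          mul_le_mul_of_nonneg_left h6 (by positivity)
        linarith
  simp only [e2] at h3
  rw [e3, e4] at h3
  exact h3

end Pool.Agent.J4H93.XC
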