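import Pool.Agent.J4H58.XC.Stm3

/-!
# The mean of a symmetric function over an order cone
-/

set_option autoImplicit false

namespace Pool.Agent.J4H93.XC

open MeasureTheory Set Filter Topology Pool.Agent.J4H58.XC

variable {n : ℕ}

/-- the Weyl chamber of the permutation `q` -/
def ch (q : Equiv.Perm (Fin n)) : Set (Fin n → ℝ) := {x | StrictMono (x ∘ q)}

theorem meas_ch (q : Equiv.Perm (Fin n)) : MeasurableSet (ch q) := by
  have : ch q = ⋂ i : Fin n, ⋂ j : Fin n, ⋂ _ : i < j, {x : Fin n → ℝ | x (q i) < x (q j)} := by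
    ext x
    simp only [mem_iInter]
    exact Iff.rfl
  rw [this]
  refine MeasurableSet.iInter fun i => MeasurableSet.iInter fun j => MeasurableSet.iInter fun _ => ?_
  exact measurableSet_lt (measurable_pi_apply _) (measurable_pi_apply _)

theorem meas_ordc (R : Fin n → Fin n → Prop) : MeasurableSet (ordc R) := by
  have : ordc R = ⋂ i : Fin n, ⋂ j : Fin n, ⋂ _ : R i j, {x : Fin n → ℝ | x i ≤ x j} := by
    ext x
    simp only [mem_iInter]
    exact Iff.rfl
  rw [this]
  refine MeasurableSet.iInter fun i => MeasurableSet.iInter fun j => MeasurableSet.iInter fun _ => ?_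
  exact measurableSet_le (measurable_pi_apply _) (measurable_pi_apply _)

theorem ae_inj : ∀ᵐ x : Fin n → ℝ, Function.Injective x := by
  have h : ∀ i j : Fin n, i ≠ j → ∀ᵐ x : Fin n → ℝ, x i ≠ x j := by
    intro i j hij
    let L : (Fin n → ℝ) →ₗ[ℝ] ℝ := LinearMap.proj (R := ℝ) (φ := fun _ : Fin n => ℝ) i -
      LinearMap.proj (R := ℝ) (φ := fun _ : Fin n => ℝ) j
    have hL : LinearMap.ker L ≠ ⊤ := by
      intro h
      have h1 : (Pi.single i 1 : Fin n → ℝ) ∈ LinearMap.ker L := by rw [h]; trivial
      rw [LinearMap.mem_ker] at h1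
      have h2 : L (Pi.single i 1) = 1 := by
        simp [L, Pi.single_eq_of_ne hij.symm]
      rw [h2] at h1
      exact one_ne_zero h1
    have h0 := Measure.addHaar_submodule (volume : Measure (Fin n → ℝ)) (LinearMap.ker L) hL
    rw [ae_iff]
    refine measure_mono_null ?_ h0
    intro x hx
    have hx' : x i = x j := not_not.1 hx
    show x ∈ LinearMap.ker L
    rw [LinearMap.mem_ker]
    simp [L, hx']
  have h2 : ∀ᵐ x : Fin n → ℝ, ∀ i j : Fin n, i ≠ j → x i ≠ x j := by
    rw [ae_all_iff]; intro i
    rw [ae_all_iff]; intro j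
    by_cases hij : i = j
    · exact Eventually.of_forall fun x h => absurd hij h
    · filter_upwards [h i j hij] with x hx _ using hx
  filter_upwards [h2] with x hx
  intro i j hij
  by_contra hne
  exact hx i j hne hij

theorem t_X15 : S_X15 := by
  intro n R G hR hG hsym
  classical
  have key : ∀ S : Set (Fin n → ℝ), MeasurableSet S →
      ∫ x in S, G x = ∑ q : Equiv.Perm (Fin n), ∫ x in S ∩ ch q, G x := by
    intro S hS
    rw [← integral_indicator hS]
    have h1 : S.indicator G =ᵐ[volume]
        fun x => ∑ q : Equiv.Perm (Fin n), (S ∩ ch q).indicator G x := by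
      filter_upwards [ae_inj] with x hx
      have hm : StrictMono (x ∘ Tuple.sort x) :=
        (Tuple.monotone_sort x).strictMono_of_injective (hx.comp (Tuple.sort x).injective)
      rw [Finset.sum_eq_single (Tuple.sort x)]
      · by_cases hxS : x ∈ S
        · rw [indicator_of_mem hxS, indicator_of_mem (show x ∈ S ∩ ch (Tuple.sort x) from ⟨hxS, hm⟩)]
        · rw [indicator_of_notMem hxS, indicator_of_notMem fun h => hxS h.1]
      · intro q _ hq
        refine indicator_of_notMem (fun h => hq ?_) _
        have h3 := Tuple.unique_monotone (f := x) (StrictMono.monotone h.2) hm.monotone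
        apply Equiv.ext
        intro i
        exact hx (congrFun h3 i)
      · intro h; exact absurd (Finset.mem_univ _) h
    rw [integral_congr_ae h1, integral_finsetSum _ fun q _ => hG.indicator (hS.inter (meas_ch q))]
    exact Finset.sum_congr rfl fun q _ => integral_indicator (hS.inter (meas_ch q))
  have hch : ∀ q : Equiv.Perm (Fin n),
      ∫ x in ch q, G x = ∫ x in ch (1 : Equiv.Perm (Fin n)), G x := by
    intro q
    have hmp := volume_measurePreserving_piCongrLeft (fun _ : Fin n => ℝ) (q.symm)
    have hval : ∀ x : Fin n → ℝ,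
        (MeasurableEquiv.piCongrLeft (fun _ : Fin n => ℝ) (q.symm)) x = x ∘ q := by
      intro x
      funext i
      have h1 := Equiv.piCongrLeft_apply_apply (fun _ : Fin n => ℝ) q.symm x (q i)
      rw [Equiv.symm_apply_apply] at h1
      exact h1
    have h := hmp.setIntegral_preimage_emb (MeasurableEquiv.measurableEmbedding _) G
      (ch (1 : Equiv.Perm (Fin n)))
    rw [← h]
    have e : (MeasurableEquiv.piCongrLeft (fun _ : Fin n => ℝ) (q.symm)) ⁻¹'
        (ch (1 : Equiv.Perm (Fin n))) = ch q := by
      ext x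
      rw [mem_preimage, hval]
      exact Iff.rfl
    rw [e]
    refine setIntegral_congr_fun (meas_ch q) fun x _ => ?_
    show G x = G _
    rw [hval, hsym]
  have hmem : ∀ q : Equiv.Perm (Fin n), ∀ x ∈ ch q, (x ∈ ordc R ↔ q ∈ Lin R) := by
    intro q x hx
    constructor
    · intro h i j hij
      have h1 := h (q i) (q j) hij
      have h2 : i ≤ j := (hx.le_iff_le (a := i) (b := j)).1 h1
      refine lt_of_le_of_ne h2 fun h3 => ?_
      rw [h3] at hij
      exact hR _ hij
    · intro h i j hij
      have h1 := h (q.symm i) (q.symm j) (by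
        rw [Equiv.apply_symm_apply, Equiv.apply_symm_apply]; exact hij)
      have h2 := hx h1
      simp only [Function.comp_apply, Equiv.apply_symm_apply] at h2
      exact h2.le
  have hL : ∫ x in ordc R, G x =
      (Nat.card (Lin R) : ℝ) * ∫ x in ch (1 : Equiv.Perm (Fin n)), G x := by
    rw [key _ (meas_ordc R)]
    have h1 : ∀ q : Equiv.Perm (Fin n), ∫ x in ordc R ∩ ch q, G x =
        if q ∈ Lin R then ∫ x in ch (1 : Equiv.Perm (Fin n)), G x else 0 := by
      intro q
      by_cases hq : q ∈ Lin R
      · rw [if_pos hq, ← hch q]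
        congr 2
        ext x
        exact ⟨fun h => h.2, fun h => ⟨(hmem q x h).2 hq, h⟩⟩
      · rw [if_neg hq]
        have : ordc R ∩ ch q = ∅ := by
          ext x
          exact ⟨fun h => hq ((hmem q x h.2).1 h.1), fun h => h.elim⟩
        rw [this, setIntegral_empty]
    rw [Finset.sum_congr rfl fun q _ => h1 q, ← Finset.sum_filter, Finset.sum_const, nsmul_eq_mul]
    congr 2
    rw [Nat.card_eq_fintype_card, Fintype.card_subtype]
  have hA : ∫ x, G x = (n.factorial : ℝ) * ∫ x in ch (1 : Equiv.Perm (Fin n)), G x := by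
    have h0 := key univ MeasurableSet.univ
    rw [setIntegral_univ] at h0
    rw [h0]
    have h1 : ∀ q : Equiv.Perm (Fin n), ∫ x in univ ∩ ch q, G x =
        ∫ x in ch (1 : Equiv.Perm (Fin n)), G x := by
      intro q
      rw [univ_inter, hch q]
    rw [Finset.sum_congr rfl fun q _ => h1 q, Finset.sum_const, nsmul_eq_mul, Finset.card_univ,
      Fintype.card_perm, Fintype.card_fin]
  rw [hL, hA]
  have hf : (n.factorial : ℝ) ≠ 0 := by exact_mod_cast n.factorial_ne_zero
  field_simp

end Pool.Agent.J4H93.XC
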